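import Pool.Agent.W622.ETG.Stm

set_option autoImplicit false
set_option linter.unusedSectionVars false

namespace Pool.Agent.W403.ELG

open Pool.Agent.W622.ETG Module

section
variable {V : Type} [AddCommGroup V] [Module (ZMod 2) V] [Finite V] {e : V} {A : Fam V}

theorem val_agree {ω : Frm V} (h : EF e ω) {X : DSub V} (hX : sp ω ≤ X) {a a' : V}
    (haa : ∀ f ∈ X, f a = f a') : ω a = ω a' := by
  refine LinearMap.ext fun v => ?_
  rw [h.symm a v, h.symm a' v]
  exact haa _ (hX ⟨v, rfl⟩)

theorem fulls (hBFULL : S_BFULL) (hA : EFam e A) (s : Finset (DSub V)) :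
    (∀ X ∈ s, Block e A X) → sSupIndep (s : Set (DSub V)) →
    ∀ x ∈ sSup (s : Set (DSub V)), ∃ γ ∈ res A (sSup (s : Set (DSub V))), ∃ a, γ a = x := by
  classical
  induction s using Finset.induction_on with
  | empty =>
    intro _ _ x hx
    rw [Finset.coe_empty, sSup_empty, Submodule.mem_bot] at hx
    subst hx
    exact ⟨0, Submodule.zero_mem _, 0, map_zero _⟩
  | insert X s hX ih =>
    intro hs hind x hx
    rw [Finset.coe_insert, sSup_insert] at hx ⊢
    rw [Finset.coe_insert] at hind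
    have hd : Disjoint X (sSup (s : Set (DSub V))) :=
      hind.disjoint_sSup (Set.mem_insert _ _) (Set.subset_insert _ _) (by simpa using hX)
    obtain ⟨x₁, hx₁, x₂, hx₂, rfl⟩ := Submodule.mem_sup.1 hx
    obtain ⟨ω, hω, a₁, ha₁⟩ := hBFULL V e A X x₁ (hs X (Finset.mem_insert_self _ _)) hx₁
    obtain ⟨γ, hγ, a₂, ha₂⟩ := ih (fun Y hY => hs Y (Finset.mem_insert_of_mem hY))
      (hind.mono (Set.subset_insert _ _)) x₂ hx₂
    obtain ⟨a, h1, h2⟩ := exists_glue hd a₁ a₂
    refine ⟨ω + γ, Submodule.add_mem _ (res_mono A le_sup_left hω) (res_mono A le_sup_right hγ),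
      a, ?_⟩
    rw [LinearMap.add_apply, val_agree (hA ω hω.1) (mem_res'.1 hω).2 h1,
      val_agree (hA γ hγ.1) (mem_res'.1 hγ).2 h2, ha₁, ha₂]

/-- every cone lies in a maximal cone -/
theorem exists_maxCone2 {Z : DSub V} (hZ : IsCone e A Z) : ∃ M, MaxCone e A M ∧ Z ≤ M := by
  have hfin : {M : DSub V | IsCone e A M ∧ Z ≤ M}.Finite := Set.toFinite _
  obtain ⟨M, hM, hmax⟩ := hfin.exists_maximalFor (fun M => M) _ ⟨Z, hZ, le_rfl⟩
  refine ⟨M, ⟨hM.1, fun Y hY hMY => ?_⟩, hM.2⟩
  exact le_antisymm (hmax ⟨hY, hM.2.trans hMY⟩ hMY) hMY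

end

theorem t_C1A (hFIND : S_FIND) (hFDEC : S_FDEC) (hF5 : S_F5) (hBNT : S_BNT) (hBEV : S_BEV)
    (hBFULL : S_BFULL) (hA4 : S_A4) (hOM : S_OM) : S_C1A := by
  intro V _ _ _ e A hFW hdim
  have hcone := hFW.cone
  have hMC := hFW.mc
  have hA := hMC.ef
  have hloc : MC e A → ∀ F ∈ BB e A, LocBlock e A F := fun h F hF => (hBEV V e A h F hF).1
  have hom : ∀ F ∈ BB e A, om e A F ∈ A ∧ om e A F ≠ 0 ∧ sp (om e A F) = F := fun F hF => by
    obtain ⟨h1, h2, h3, -⟩ := hOM V e A F hA (hloc hMC F hF)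
    exact ⟨h1, h2, h3⟩
  have hdim2 : ∀ F ∈ BB e A, 2 ≤ finrank (ZMod 2) F := fun F hF => (hBEV V e A hMC F hF).2
  have hnt : ∀ F ∈ BB e A, F ≠ ⊤ := fun F hF => (hBNT V e A F hMC hF.1).1
  have hnb : ∀ F ∈ BB e A, F ≠ ⊥ := fun F hF => (hBNT V e A F hMC hF.1).2
  have hnG : ∀ F ∈ BB e A, F ∉ GB e A := fun F hF h => hF.2 h.2
  have hind1 : ∀ F ∈ BB e A, sSupIndep (GB e A ∪ {F}) := by
    intro F hF
    apply hFIND V e A {F} hFW (Set.singleton_subset_iff.2 hF)
    rw [sSup_singleton]
    exact hnt F hF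
  have hdisP : ∀ F ∈ BB e A, Disjoint F (PP e A) := fun F hF =>
    (hind1 F hF).disjoint_sSup (Set.mem_union_right _ (Set.mem_singleton F))
      Set.subset_union_left (hnG F hF)
  have hsupP : ∀ F ∈ BB e A, F ⊔ PP e A = ⊤ := by
    intro F hF
    have h3 := Submodule.finrank_sup_add_finrank_inf_eq F (PP e A)
    rw [(hdisP F hF).eq_bot, finrank_bot, add_zero, hdim F hF] at h3
    apply Submodule.eq_top_of_finrank_eq
    rw [h3, finrank_Dl]
  have hspan2 : ∀ F ∈ BB e A, ∀ F' ∈ BB e A, F ≠ F' → F ⊔ F' = ⊤ := by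
    intro F hF F' hF' hne
    by_contra h
    have h1 : sSupIndep (GB e A ∪ {F, F'}) := by
      apply hFIND V e A {F, F'} hFW
      · rintro Z (rfl | rfl)
        · exact hF
        · exact hF'
      · rwa [sSup_pair]
    have h2 : Disjoint F (sSup (GB e A ∪ {F'})) := by
      apply h1.disjoint_sSup
      · right; left; rfl
      · apply Set.union_subset_union_right
        exact Set.subset_insert _ _
      · rintro (h | h)
        · exact hnG F hF h
        · exact hne h
    rw [sSup_union, sSup_singleton] at h2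
    have h3 : sSup (GB e A) ⊔ F' = ⊤ := by
      rw [sup_comm]; exact hsupP F' hF'
    rw [h3] at h2
    exact hnb F hF (disjoint_top.1 h2)
  obtain ⟨Z, hZ⟩ := hcone
  obtain ⟨M, hM, -⟩ := exists_maxCone2 hZ
  have hMG : M ∈ GB e A := ⟨Or.inl hM, hA4 V e A M hMC hM⟩
  obtain ⟨p, hM3, hp, hp0, hpe, hpg⟩ := hM.1
  set P₁ : DSub V := sSup (GB e A \ {M}) with hP₁
  have hPP : P₁ ⊔ M = PP e A := by
    have : GB e A = insert M (GB e A \ {M}) := by
      rw [Set.insert_sdiff_singleton, Set.insert_eq_of_mem hMG]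
    unfold PP
    conv_rhs => rw [this]
    rw [sSup_insert, sup_comm]
  -- the claim
  have hclaim : ∀ B' ∈ BB e A, ∀ B ∈ BB e A, B ≠ B' → B ≤ B' ⊔ P₁ := by
    intro B' hB' B hB hne
    have hindG := hind1 B' hB'
    have hMQ : Disjoint M (B' ⊔ P₁) := by
      have h1 := hindG.disjoint_sSup (x := M) (y := {B'} ∪ (GB e A \ {M}))
        (Set.mem_union_left _ hMG)
        (Set.union_subset Set.subset_union_right (Set.sdiff_subset.trans Set.subset_union_left))
        (by
          rintro (h | h)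
          · rw [Set.mem_singleton_iff] at h
            exact hnG B' hB' (h ▸ hMG)
          · exact h.2 rfl)
      rwa [sSup_union, sSup_singleton] at h1
    have hP₁M : Disjoint P₁ M := (hMQ.mono_right le_sup_right).symm
    have htopQ : M ⊔ (B' ⊔ P₁) = ⊤ := by
      rw [← hsupP B' hB', ← hPP]
      ac_rfl
    obtain ⟨hωB'A, hωB'0, hωB's⟩ := hom B' hB'
    obtain ⟨hωBA, hωB0, hωBs⟩ := hom B hB
    have hfinG : (GB e A \ {M}).Finite := Set.toFinite _
    -- key step
    have hkey : ∀ h ∈ B, h ≠ 0 → ∀ h' ∈ B', ∀ x ∈ P₁, ∀ m ∈ M, h = h' + x + m →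
        ∀ γ ∈ res A P₁, ∀ η ∈ res A M, ∀ l : V, γ l = x → η l = m →
        ∃ a : V, (∀ f ∈ PP e A, f a = f l) ∧ om e A B' a = h' ∧ om e A B a = h := by
      intro h hh hh0 h' hh' x hx m hm heq γ hγ η hη l hγl hηl
      obtain ⟨a₀, ha₀⟩ : ∃ a, om e A B' a = h' := by
        rw [← hωB's] at hh'
        exact hh'
      obtain ⟨c₀, hc₀⟩ : ∃ a, om e A B a = h := by
        have := hh
        rw [← hωBs] at this
        exact this
      obtain ⟨a, ha1, ha2⟩ := exists_glue (hdisP B' hB') a₀ l
      obtain ⟨c, hc1, hc2⟩ := exists_glue (hdisP B hB) c₀ l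
      have hPle : P₁ ≤ PP e A := by rw [← hPP]; exact le_sup_left
      have hMle : M ≤ PP e A := by rw [← hPP]; exact le_sup_right
      have hva : om e A B' a = h' := by
        rw [val_agree (hA _ hωB'A) hωB's.le ha1, ha₀]
      have hvc : om e A B c = h := by
        rw [val_agree (hA _ hωBA) hωBs.le hc1, hc₀]
      have hγa : γ a = x := by
        rw [val_agree (hA _ hγ.1) ((mem_res'.1 hγ).2.trans hPle) ha2, hγl]
      have hηa : η a = m := by
        rw [val_agree (hA _ hη.1) ((mem_res'.1 hη).2.trans hMle) ha2, hηl]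
      have hlink := hMC.her.linked (om e A B' + γ + η)
        (A.add_mem (A.add_mem hωB'A hγ.1) hη.1) (om e A B) hωBA a c (by
          rw [LinearMap.add_apply, LinearMap.add_apply, hva, hγa, hηa, hvc, heq])
      obtain ⟨ζ, hζA, hζa, hζc⟩ := hlink
      have hval : (om e A B' + γ + η) a = h := by
        rw [LinearMap.add_apply, LinearMap.add_apply, hva, hγa, hηa, heq]
      rw [hval] at hζa hζc
      obtain ⟨N, hN, hNtop, γ₁, hγ₁, hζe⟩ := hFDEC V e A ζ hFW hζA
      have hγ₁' : γ₁ ∈ res A (PP e A) := by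
        have : (⨆ X ∈ GB e A, res A X) ≤ res A (PP e A) :=
          iSup₂_le fun X hX => res_mono A (le_sSup hX)
        exact this hγ₁
      have hac : ∀ f ∈ PP e A, f (a + c) = 0 := by
        intro f hf
        rw [map_add, ha2 f hf, hc2 f hf, vadd]
      have hζac : ζ (a + c) = 0 := by rw [map_add, hζa, hζc, vadd]
      have haceq : a + c = 0 := by
        rcases N.eq_empty_or_nonempty with hN0 | ⟨F, hF⟩
        · exfalso
          rw [hN0, Finset.sum_empty, add_zero] at hζe
          have h1 : h ∈ PP e A := by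
            rw [← hζa, hζe]
            exact hγ₁'.2 a
          have h2 : h ∈ B ⊓ PP e A := ⟨hh, h1⟩
          rw [(hdisP B hB).eq_bot, Submodule.mem_bot] at h2
          exact hh0 h2
        · have hNF : N = {F} := by
            rw [Finset.eq_singleton_iff_unique_mem]
            refine ⟨hF, fun F' hF' => ?_⟩
            by_contra hne'
            apply hNtop
            rw [eq_top_iff, ← hspan2 F' (hN hF') F (hN hF) hne']
            exact sup_le (le_sSup hF') (le_sSup hF)
          rw [hNF, Finset.sum_singleton] at hζe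
          have hFB : F ∈ BB e A := hN hF
          obtain ⟨hωFA, hωF0, hωFs⟩ := hom F hFB
          have h1 : om e A F (a + c) = γ₁ (a + c) := by
            rw [hζe, LinearMap.add_apply] at hζac
            exact (Pool.Agent.W622.ETG.add_eq_zero'.1 hζac).symm
          have h2 : om e A F (a + c) ∈ F ⊓ PP e A := by
            refine ⟨?_, ?_⟩
            · have : om e A F (a + c) ∈ sp (om e A F) := ⟨_, rfl⟩
              rwa [hωFs] at this
            · rw [h1]; exact hγ₁'.2 _
          rw [(hdisP F hFB).eq_bot, Submodule.mem_bot] at h2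
          have h3 : F ≤ ann (a + c) := by
            have := (hA _ hωFA).ker_iff_ann.1 h2
            rwa [hωFs] at this
          have h4 : (⊤ : DSub V) ≤ ann (a + c) := by
            rw [← hsupP F hFB]
            exact sup_le h3 hac
          by_contra hne'
          exact ann_ne_top hne' (top_le_iff.1 h4)
      have hace : a = c := Pool.Agent.W622.ETG.add_eq_zero'.1 haceq
      exact ⟨a, ha2, hva, by rw [hace]; exact hvc⟩
    -- the consequence for the `M`-parts
    have hkey2 : ∀ h ∈ B, h ≠ 0 → ∀ m ∈ M, h + m ∈ B' ⊔ P₁ → ∀ μ μ' : V,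
        (∃ η ∈ res A M, η μ = m) → (∃ η ∈ res A M, η μ' = m) →
        ∀ g ∈ B, ∀ k ∈ M, g + k ∈ B' ⊔ P₁ → k (μ + μ') = 0 := by
      intro h hh hh0 m hm hhm μ μ' ⟨η, hη, hημ⟩ ⟨η', hη', hημ'⟩ g hg k hk hgk
      obtain ⟨h', hh', x, hx, hhx⟩ := Submodule.mem_sup.1 hhm
      have heq : h = h' + x + m := by
        rw [hhx, add_cancel']
      obtain ⟨γ, hγ, l₀, hl₀⟩ := fulls hBFULL hA hfinG.toFinset
        (fun X hX => ((hfinG.mem_toFinset.1 hX).1).1)
        (by
          rw [hfinG.coe_toFinset]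
          exact hindG.mono (Set.sdiff_subset.trans Set.subset_union_left)) x
        (by rw [hfinG.coe_toFinset]; exact hx)
      rw [hfinG.coe_toFinset] at hγ
      obtain ⟨l, hl1, hl2⟩ := exists_glue hP₁M l₀ μ
      obtain ⟨l', hl1', hl2'⟩ := exists_glue hP₁M l₀ μ'
      obtain ⟨a, ha1, ha2, ha3⟩ := hkey h hh hh0 h' hh' x hx m hm heq γ hγ η hη l
        (by rw [val_agree (hA _ hγ.1) (mem_res'.1 hγ).2 hl1, hl₀])
        (by rw [val_agree (hA _ hη.1) (mem_res'.1 hη).2 hl2, hημ])
      obtain ⟨a', ha1', ha2', ha3'⟩ := hkey h hh hh0 h' hh' x hx m hm heq γ hγ η' hη' l'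
        (by rw [val_agree (hA _ hγ.1) (mem_res'.1 hγ).2 hl1', hl₀])
        (by rw [val_agree (hA _ hη'.1) (mem_res'.1 hη').2 hl2', hημ'])
      have hv1 : B' ≤ ann (a + a') := by
        have h1 : om e A B' (a + a') = 0 := by rw [map_add, ha2, ha2', vadd]
        have := (hA _ hωB'A).ker_iff_ann.1 h1
        rwa [hωB's] at this
      have hv2 : B ≤ ann (a + a') := by
        have h1 : om e A B (a + a') = 0 := by rw [map_add, ha3, ha3', vadd]
        have := (hA _ hωBA).ker_iff_ann.1 h1
        rwa [hωBs] at this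
      obtain ⟨g', hg', y, hy, hgy⟩ := Submodule.mem_sup.1 hgk
      have e1 : k = g + (g' + y) := by
        rw [hgy, add_cancel_left']
      have h1 : g (a + a') = 0 := hv2 hg
      have h2 : g' (a + a') = 0 := hv1 hg'
      have h3 : y (a + a') = 0 := by
        have hyP : y ∈ PP e A := by rw [← hPP]; exact Submodule.mem_sup_left hy
        rw [map_add, ha1 y hyP, ha1' y hyP, hl1 y hy, hl1' y hy, vadd]
      have h4 : k (a + a') = 0 := by
        rw [e1, LinearMap.add_apply, LinearMap.add_apply, h1, h2, h3, add_zero, add_zero]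
      have hkP : k ∈ PP e A := by rw [← hPP]; exact Submodule.mem_sup_right hk
      have h5 : k (a + a') = k (μ + μ') := by
        rw [map_add, map_add, ha1 k hkP, ha1' k hkP, hl2 k hk, hl2' k hk]
      rw [← h5, h4]
    -- decomposition
    have hdec : ∀ g : Dl V, ∃ k ∈ M, g + k ∈ B' ⊔ P₁ := by
      intro g
      have : g ∈ M ⊔ (B' ⊔ P₁) := by rw [htopQ]; exact Submodule.mem_top
      obtain ⟨k, hk, r, hr, hkr⟩ := Submodule.mem_sup.1 this
      refine ⟨k, hk, ?_⟩
      rw [← hkr]
      have : k + r + k = r := by rw [add_comm k r, add_cancel']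
      rw [this]
      exact hr
    by_cases hcase : ∃ h ∈ B, h ≠ 0 ∧ h ∈ B' ⊔ P₁
    · obtain ⟨h, hh, hh0, hhQ⟩ := hcase
      intro g hg
      obtain ⟨k, hk, hgk⟩ := hdec g
      have hk0 : k = 0 := by
        refine LinearMap.ext fun μ => ?_
        have := hkey2 h hh hh0 0 (Submodule.zero_mem _) (by rwa [add_zero]) μ 0
          ⟨0, Submodule.zero_mem _, rfl⟩ ⟨0, Submodule.zero_mem _, rfl⟩ g hg k hk hgk
        rw [add_zero] at this
        exact this
      rw [hk0, add_zero] at hgk
      exact hgk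
    · exfalso
      push Not at hcase
      -- nonzero `M`-parts
      have hne0 : ∀ h ∈ B, h ≠ 0 → ∀ m, h + m ∈ B' ⊔ P₁ → m ≠ 0 := by
        rintro h hh hh0 m hm rfl
        rw [add_zero] at hm
        exact hcase h hh hh0 hm
      have hwM : ∀ g ∈ M, wd e p g ∈ res A M := by
        intro g hg
        rw [mem_res']
        refine ⟨hpg g hg, (sp_wd_le p g).trans (Submodule.span_le.2 ?_)⟩
        rintro f (rfl | rfl)
        · exact hp
        · exact hg
      -- two elements of `B`
      have htwo : ∀ h : Dl V, ∃ h₂ ∈ B, h₂ ≠ 0 ∧ h₂ ≠ h := by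
        intro h
        by_contra hc
        push Not at hc
        have h1 : B ≤ Submodule.span (ZMod 2) {h} := by
          intro g hg
          by_cases hg0 : g = 0
          · rw [hg0]; exact Submodule.zero_mem _
          · rw [hc g hg hg0]; exact Submodule.mem_span_singleton_self h
        have h2 := Submodule.finrank_mono h1
        have h3 := hdim2 B hB
        have h4 : finrank (ZMod 2) (Submodule.span (ZMod 2) {h}) ≤ 1 := by
          by_cases hh : h = 0
          · rw [hh, Submodule.span_zero_singleton, finrank_bot]; omega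
          · rw [finrank_span_singleton hh]
        omega
      -- sums of parts
      have hpart : ∀ g g₂ k k₂ : Dl V, g + k ∈ B' ⊔ P₁ → g₂ + k₂ ∈ B' ⊔ P₁ →
          (g + g₂) + (k + k₂) ∈ B' ⊔ P₁ := by
        intro g g₂ k k₂ h1 h2
        have e : (g + g₂) + (k + k₂) = (g + k) + (g₂ + k₂) := by abel
        rw [e]
        exact Submodule.add_mem _ h1 h2
      -- step a
      have hstepa : ∀ h ∈ B, h ≠ 0 → h + p ∉ B' ⊔ P₁ := by
        intro h hh hh0 hhp
        obtain ⟨h₂, hh₂, hh₂0, hh₂h⟩ := htwo h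
        obtain ⟨g₂, hg₂, hhg₂⟩ := hdec h₂
        have hg₂0 : g₂ ≠ 0 := hne0 h₂ hh₂ hh₂0 g₂ hhg₂
        have hg₂p : g₂ ≠ p := by
          rintro rfl
          have h1 := hpart h h₂ _ _ hhp hhg₂
          have h2 : g₂ + g₂ = 0 := vadd g₂
          exact hne0 (h + h₂) (B.add_mem hh hh₂) (fun h0 => hh₂h (Pool.Agent.W622.ETG.add_eq_zero'.1 h0).symm) _ h1 h2
        have hg₂n : g₂ ∉ Submodule.span (ZMod 2) {p} := by
          intro h
          rcases span_one_mem.1 h with h | h
          · exact hg₂0 h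
          · exact hg₂p h
        obtain ⟨μ, hμ1, hμ2⟩ := exists_coann hg₂n
        have hpμ : p μ = 0 := hμ1 p (Submodule.mem_span_singleton_self p)
        obtain ⟨g₃, hg₃, hg₃n⟩ : ∃ g₃ ∈ M, g₃ ∉ Submodule.span (ZMod 2) {p, g₂} := by
          by_contra hc
          push Not at hc
          have h1 : M ≤ Submodule.span (ZMod 2) {p, g₂} := hc
          have h2 := Submodule.finrank_mono h1
          classical
          have h4 := finrank_span_finset_le_card (R := ZMod 2) ({p, g₂} : Finset (Dl V))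
          rw [Finset.coe_pair] at h4
          have h5 : finrank (ZMod 2) (Submodule.span (ZMod 2) {p, g₂}) ≤ 2 :=
            h4.trans Finset.card_le_two
          omega
        obtain ⟨μ', hμ'1, hμ'2⟩ := exists_coann hg₃n
        have hpμ' : p μ' = 0 := hμ'1 p (Submodule.subset_span (by simp))
        have hgμ' : g₂ μ' = 0 := hμ'1 g₂ (Submodule.subset_span (by simp))
        have h1 := hkey2 h hh hh0 p hp hhp μ μ'
          ⟨wd e p g₂, hwM g₂ hg₂, by rw [wd_val_zero hpμ, hμ2, one_smul]⟩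
          ⟨wd e p g₃, hwM g₃ hg₃, by rw [wd_val_zero hpμ', hμ'2, one_smul]⟩
          h₂ hh₂ g₂ hg₂ hhg₂
        rw [map_add, hμ2, hgμ', add_zero] at h1
        exact one_ne_zero h1
      -- step b
      obtain ⟨h, hh, hh0, -⟩ := htwo 0
      obtain ⟨h₂, hh₂, hh₂0, hh₂h⟩ := htwo h
      obtain ⟨g₀, hg₀, hhg₀⟩ := hdec h
      obtain ⟨g₂, hg₂, hhg₂⟩ := hdec h₂
      have hsum0 : h + h₂ ≠ 0 := fun h0 => hh₂h (Pool.Agent.W622.ETG.add_eq_zero'.1 h0).symm
      have hg₀p : g₀ ≠ p := by
        rintro rfl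
        exact hstepa h hh hh0 hhg₀
      have hg₀0 : g₀ ≠ 0 := hne0 h hh hh0 g₀ hhg₀
      have hg₂n : g₂ ∉ Submodule.span (ZMod 2) {p, g₀} := by
        intro hc
        rcases span_pair_mem.1 hc with h1 | h1 | h1 | h1
        · exact hne0 h₂ hh₂ hh₂0 g₂ hhg₂ h1
        · rw [h1] at hhg₂
          exact hstepa h₂ hh₂ hh₂0 hhg₂
        · have h3 := hpart h h₂ _ _ hhg₀ hhg₂
          rw [h1] at h3
          exact hne0 (h + h₂) (B.add_mem hh hh₂) hsum0 _ h3 (vadd g₀)
        · have h3 := hpart h h₂ _ _ hhg₀ hhg₂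
          rw [h1] at h3
          have e : g₀ + (p + g₀) = p := by
            rw [add_comm p g₀, add_cancel_left']
          rw [e] at h3
          exact hstepa (h + h₂) (B.add_mem hh hh₂) hsum0 h3
      obtain ⟨u, hu1, hu2⟩ := exists_coann hg₂n
      have hpu : p u = 0 := hu1 p (Submodule.subset_span (by simp))
      have hgu : g₀ u = 0 := hu1 g₀ (Submodule.subset_span (by simp))
      have hpn : p ∉ Submodule.span (ZMod 2) {g₀} := by
        intro hc
        rcases span_one_mem.1 hc with h1 | h1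
        · exact hp0 h1
        · exact hg₀p h1.symm
      obtain ⟨μ, hμ1, hμ2⟩ := exists_coann hpn
      have hgμ : g₀ μ = 0 := hμ1 g₀ (Submodule.mem_span_singleton_self g₀)
      have h1 := hkey2 h hh hh0 g₀ hg₀ hhg₀ (μ + e) (μ + e + u)
        ⟨wd e p g₀, hwM g₀ hg₀, wd_val_one (by rw [map_add, hμ2, hpe, add_zero])
          (by rw [map_add, hgμ, zero_add])⟩
        ⟨wd e p g₀, hwM g₀ hg₀, wd_val_one (by rw [map_add, map_add, hμ2, hpe, hpu, add_zero,
          add_zero]) (by rw [map_add, map_add, hgμ, hgu, zero_add, add_zero])⟩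
        h₂ hh₂ g₂ hg₂ hhg₂
      have e₁ : (μ + e) + ((μ + e) + u) = u := add_cancel_left' (μ + e) u
      rw [e₁, hu2] at h1
      exact one_ne_zero h1
  -- conclusion
  have hne : (BB e A).Nonempty := by
    rw [Set.nonempty_iff_ne_empty]
    intro h
    have h1 := hF5 V e A hFW
    rw [h, sSup_empty] at h1
    have h5 : finrank (ZMod 2) (⊥ : DSub V) = finrank (ZMod 2) (⊤ : DSub V) := by rw [h1]
    rw [finrank_bot, finrank_top, finrank_Dl] at h5
    have := hFW.four
    omega
  obtain ⟨B', hB'⟩ := hne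
  have hle : sSup (BB e A) ≤ B' ⊔ P₁ := by
    apply sSup_le
    intro B hB
    by_cases h : B = B'
    · rw [h]; exact le_sup_left
    · exact hclaim B' hB' B hB h
  rw [hF5 V e A hFW] at hle
  have hMQ : Disjoint M (B' ⊔ P₁) := by
    have h1 := (hind1 B' hB').disjoint_sSup (x := M) (y := {B'} ∪ (GB e A \ {M}))
      (Set.mem_union_left _ hMG)
      (Set.union_subset Set.subset_union_right (Set.sdiff_subset.trans Set.subset_union_left))
      (by
        rintro (h | h)
        · rw [Set.mem_singleton_iff] at h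
          exact hnG B' hB' (h ▸ hMG)
        · exact h.2 rfl)
    rwa [sSup_union, sSup_singleton] at h1
  rw [top_le_iff.1 hle] at hMQ
  have hMb : M = ⊥ := disjoint_top.1 hMQ
  rw [hMb, finrank_bot] at hM3
  omega

end Pool.Agent.W403.ELG
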